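import Pool.Agent.Run7.h46.V.Defs

/-! Piece V2: the classes of twins of half-graph words. -/

namespace Run7.h787.V2

open Set Filter Function Run7.h46.V

section
variable {C : Type} {d : ℕ → ℕ → C} {blk : ℕ → ℕ} {lab : ℕ → Bool} {δ : Bool → Bool → C}

/-- two points with label `true` of one block are twins -/
theorem tw_same (hS : Sw d)
    (hac : ∀ x y, blk y < blk x → d x y = δ (lab x) (lab y))
    (htt : ∀ x y, x ≠ y → lab x = true → lab y = true → blk x = blk y → d x y = δ true true)
    (hft : ∀ x y, lab x = true → lab y = false → blk x = blk y → d y x = δ false true)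
    {z z' : ℕ} (hne : z ≠ z') (hz : lab z = true) (hz' : lab z' = true) (hb : blk z = blk z') :
    Tw d z z' := by
  refine ⟨fun v hv hv' => ?_, ?_⟩
  · rcases lt_trichotomy (blk v) (blk z) with h | h | h
    · rw [hac z v h, hac z' v (hb ▸ h), hz, hz']
    · cases hl : lab v with
      | true => rw [htt z v hv.symm hz hl h.symm, htt z' v hv'.symm hz' hl (by rw [← hb, h])]
      | false =>
        refine hS v z v z' ?_
        rw [hft z v hz hl h.symm, hft z' v hz' hl (by rw [← hb, h])]
    · refine hS v z v z' ?_
      rw [hac v z h, hac v z' (hb ▸ h), hz, hz']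
  · rw [htt z z' hne hz hz' hb, htt z' z hne.symm hz' hz hb.symm]

theorem tw_symm {x y : ℕ} (h : Tw d x y) : Tw d y x :=
  ⟨fun v hv hv' => (h.1 v hv' hv).symm, h.2.symm⟩

end

theorem main : StV2 := by
  intro C d blk lab δ hS hfin hy hz2 hac htt hft hstt hsff hno
  have hnc : ∀ b, {x | blk x = b ∧ lab x = true}.Finite := fun b =>
    (hfin b).subset (fun x hx => hx.1)
  -- a point with label true different from a given point
  have hzpt : ∀ b x, ∃ z, blk z = b ∧ lab z = true ∧ z ≠ x := by
    intro b x
    have h2 := hz2 b
    obtain ⟨u, v, hu, hv, huv⟩ := (Set.one_lt_ncard_iff (hnc b)).1 (by omega)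
    by_cases h : u = x
    · exact ⟨v, hv.1, hv.2, fun hvx => huv (h.trans hvx.symm)⟩
    · exact ⟨u, hu.1, hu.2, h⟩
  -- two points with label true in different blocks
  have h2 : ∀ z z', lab z = true → lab z' = true → blk z < blk z' → ¬ Tw d z z' := by
    intro z z' hz hz' hb hT
    obtain ⟨y, hyb, hyl, -⟩ := hy (blk z)
    have h1 : d y z = δ false true := hft z y hz hyl hyb.symm
    have h3 : d z' y = δ true false := by rw [hac z' y (by omega), hz', hyl]
    have h4 : d z y = d z' y := hT.1 y (by rintro rfl; simp_all) (by rintro rfl; simp_all)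
    exact hno z y ⟨h4.trans h3, h1⟩
  have h3 : ∀ y y', lab y = false → lab y' = false → blk y < blk y' → ¬ Tw d y y' := by
    intro y y' hyl hyl' hb hT
    obtain ⟨v, hvb, hvl, -⟩ := hzpt (blk y') y
    have h1 : d v y = δ true false := by rw [hac v y (by omega), hvl, hyl]
    have h3 : d y' v = δ false true := hft v y' hvl hyl' hvb
    have h4 : d y v = d y' v := hT.1 v (by rintro rfl; simp_all) (by rintro rfl; simp_all)
    exact hno v y ⟨h1, h4.trans h3⟩
  have h4 : ∀ x y, lab x = true → lab y = false → ¬ Tw d x y := by
    intro x y hx hyl hT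
    obtain ⟨v, hvb, hvl, hvx⟩ := hzpt 0 x
    have a1 : d x v = δ true true := by
      rcases Nat.eq_zero_or_pos (blk x) with h | h
      · exact htt x v hvx.symm hx hvl (by rw [h, hvb])
      · rw [hac x v (by omega), hx, hvl]
    have a2 : d y v = δ false true := by
      rcases Nat.eq_zero_or_pos (blk y) with h | h
      · exact hft v y hvl hyl (by rw [h, hvb])
      · rw [hac y v (by omega), hyl, hvl]
    have a3 : d x v = d y v := hT.1 v hvx (by rintro rfl; simp_all)
    have a4 : δ true true = δ false true := by rw [← a1, a3, a2]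
    obtain ⟨u, hub, hul, -⟩ := hzpt (max (blk x) (blk y) + 1) x
    have hux : blk x < blk u := by rw [hub]; have := le_max_left (blk x) (blk y); omega
    have huy : blk y < blk u := by rw [hub]; have := le_max_right (blk x) (blk y); omega
    have b1 : d u x = δ true true := by rw [hac u x hux, hul, hx]
    have b2 : d x u = δ true true := hstt _ _ b1
    have b3 : d u y = δ true false := by rw [hac u y huy, hul, hyl]
    have b4 : d x u = d y u := hT.1 u (by rintro rfl; omega) (by rintro rfl; omega)
    have b5 : d u x = d u y := hS x u y u b4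
    have b6 : δ true true = δ true false := by rw [← b1, b5, b3]
    exact hno u x ⟨by rw [b1, b6], by rw [b2, a4]⟩
  have key : ∀ x y, x ≠ y → (Tw d x y ↔ blk x = blk y ∧ lab x = true ∧ lab y = true) := by
    intro x y hxy
    constructor
    · intro hT
      cases hx : lab x with
      | true =>
        cases hyl : lab y with
        | true =>
          refine ⟨?_, rfl, rfl⟩
          rcases lt_trichotomy (blk x) (blk y) with h | h | h
          · exact absurd hT (h2 x y hx hyl h)
          · exact h
          · exact absurd (tw_symm hT) (h2 y x hyl hx h)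
        | false => exact absurd hT (h4 x y hx hyl)
      | false =>
        cases hyl : lab y with
        | true => exact absurd (tw_symm hT) (h4 y x hyl hx)
        | false =>
          exfalso
          rcases lt_trichotomy (blk x) (blk y) with h | h | h
          · exact h3 x y hx hyl h hT
          · obtain ⟨w, -, -, hw⟩ := hy (blk x)
            exact hxy ((hw x rfl hx).trans (hw y h.symm hyl).symm)
          · exact h3 y x hyl hx h (tw_symm hT)
    · rintro ⟨hb, hx, hyl⟩
      exact tw_same hS hac htt hft hxy hx hyl hb
  ext n
  constructor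
  · rintro ⟨F, hF, ⟨x, hxF⟩, hpw, hout⟩
    cases hx : lab x with
    | false =>
      left
      have : F = {x} := by
        refine Finset.eq_singleton_iff_unique_mem.2 ⟨hxF, fun y hyF => ?_⟩
        by_contra hne
        have := (key x y (Ne.symm hne)).1 (hpw x hxF y hyF (Ne.symm hne))
        simp_all
      rw [this] at hF
      simpa using hF.symm
    | true =>
      right
      refine ⟨blk x, ?_⟩
      rw [← hF, ← Set.ncard_coe_finset F]
      congr 1
      ext y
      simp only [Finset.mem_coe, Set.mem_ofPred_eq]
      constructor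
      · intro hyF
        by_cases hne : x = y
        · subst hne; exact ⟨rfl, hx⟩
        · have := (key x y hne).1 (hpw x hxF y hyF hne)
          exact ⟨this.1.symm, this.2.2⟩
      · rintro ⟨hb, hyl⟩
        by_contra hyF
        have hne : x ≠ y := by rintro rfl; exact hyF hxF
        exact hout x hxF y hyF ((key x y hne).2 ⟨hb.symm, hx, hyl⟩)
  · rintro (h | ⟨b, hb⟩)
    · obtain ⟨y, hyb, hyl, -⟩ := hy 0
      refine ⟨{y}, ?_, ⟨y, Finset.mem_singleton_self y⟩, ?_, ?_⟩
      · simpa using h.symm
      · intro u hu v hv huv
        rw [Finset.mem_singleton] at hu hv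
        exact absurd (hu.trans hv.symm) huv
      · intro u hu v hv hT
        rw [Finset.mem_singleton] at hu hv
        subst hu
        have := (key u v (Ne.symm hv)).1 hT
        simp_all
    · refine ⟨(hnc b).toFinset, ?_, ?_, ?_, ?_⟩
      · rw [hb, Set.ncard_eq_toFinset_card _ (hnc b)]
      · obtain ⟨z, hzb, hzl, -⟩ := hzpt b 0
        exact ⟨z, by simp [hzb, hzl]⟩
      · intro u hu v hv huv
        simp only [Set.Finite.mem_toFinset, Set.mem_ofPred_eq] at hu hv
        exact (key u v huv).2 ⟨by rw [hu.1, hv.1], hu.2, hv.2⟩
      · intro u hu v hv hT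
        simp only [Set.Finite.mem_toFinset, Set.mem_ofPred_eq] at hu hv
        have hne : u ≠ v := by rintro rfl; exact hv hu
        have := (key u v hne).1 hT
        exact hv ⟨by rw [← this.1, hu.1], this.2.2⟩

end Run7.h787.V2
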