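import Pool.Agent.Run7.h46.V.Defs

/-! Piece V3: the criterion for cellularity. -/

namespace Run7.h787.V3

open Set Filter Function Run7.h46.V

/-- enumeration of a finite set (junk value `0` past the end) -/
noncomputable def en (S : Finset ℕ) (l : ℕ) : ℕ :=
  if h : l < S.card then S.orderEmbOfFin rfl ⟨l, h⟩ else 0

theorem en_mem {S : Finset ℕ} {l : ℕ} (h : l < S.card) : en S l ∈ S := by
  unfold en
  rw [dif_pos h]
  exact Finset.orderEmbOfFin_mem _ _ _

theorem en_inj {S : Finset ℕ} {l l' : ℕ} (h : l < S.card) (h' : l' < S.card)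
    (e : en S l = en S l') : l = l' := by
  unfold en at e
  rw [dif_pos h, dif_pos h'] at e
  have := (S.orderEmbOfFin rfl).injective e
  simpa using this

theorem en_surj {S : Finset ℕ} {x : ℕ} (hx : x ∈ S) : ∃ l, l < S.card ∧ en S l = x := by
  have : x ∈ Set.range (S.orderEmbOfFin rfl) := by
    rw [Finset.range_orderEmbOfFin]; exact hx
  obtain ⟨⟨l, hl⟩, hx⟩ := this
  exact ⟨l, hl, by unfold en; rw [dif_pos hl]; exact hx⟩

/-- the type of a component -/
abbrev Ty (K : ℕ) (C P : Type) : Type := Fin (K + 1) × (Fin K → P) × (Fin K → Fin K → C)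

/-- the type of a component -/
noncomputable def ty {C P : Type} (K : ℕ) (d : ℕ → ℕ → C) (lab : ℕ → P) (S : Finset ℕ) :
    Ty K C P :=
  (⟨min S.card K, by omega⟩, fun l => lab (en S l), fun l l' => d (en S l) (en S l'))

/-- cellularity with an arbitrary finite index type -/
theorem cell_of {C : Type} (d : ℕ → ℕ → C) {ι : Type} [Finite ι] (k : ι → ℕ) (K : Set ℕ)
    (c : ∀ i : ι, ℕ → Fin (k i) → ℕ) (hK : K.Finite) (h1 : ∀ i j l, c i j l ∉ K)
    (h2 : ∀ i j l i' j' l', c i j l = c i' j' l' →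
      i = i' ∧ j = j' ∧ (l : ℕ) = (l' : ℕ))
    (h3 : ∀ x, x ∈ K ∨ ∃ i j l, x = c i j l)
    (h4 : ∀ (i : ι) (σ : Equiv.Perm ℕ), ∃ g : Equiv.Perm ℕ, (∀ x y, d (g x) (g y) = d x y) ∧
      (∀ j l, g (c i j l) = c i (σ j) l) ∧ ∀ x, (∀ j l, x ≠ c i j l) → g x = x) :
    CellD d := by
  obtain ⟨n, ⟨ε⟩⟩ := Finite.exists_equiv_fin ι
  refine ⟨n, fun i => k (ε.symm i), K, fun i => c (ε.symm i), hK, fun i j l => h1 _ j l, ?_, ?_,
    fun i σ => h4 _ σ⟩
  · rintro ⟨i, j, l⟩ ⟨i', j', l'⟩ h
    obtain ⟨a, b, e⟩ := h2 _ _ _ _ _ _ h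
    have a' : i = i' := ε.symm.injective a
    subst a'
    have b' : j = j' := b
    subst b'
    have e' : l = l' := Fin.ext e
    subst e'
    rfl
  · intro x
    rcases h3 x with h | ⟨i, j, l, h⟩
    · exact Or.inl h
    · right
      obtain ⟨i', rfl⟩ := ε.symm.surjective i
      exact ⟨i', j, l, h⟩

theorem main : StV3 := by
  intro C P _ _ d lab δ p G₀ K cmp hS hG₀ hp hc1 hc2 hc3 hac
  classical
  set E1 : Set ℕ := G₀ᶜ with hE1
  set X1 : Set ℕ := {y | ∃ e ∈ E1, d y e ≠ p (lab y) e} with hX1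
  have hX1fin : X1.Finite := by
    have : X1 = ⋃ e ∈ E1, {y | d y e ≠ p (lab y) e} := by
      ext y; simp [hX1]
    rw [this]
    refine Set.Finite.biUnion hG₀ (fun e _ => ?_)
    have := hp e
    rw [Filter.eventually_cofinite] at this
    exact this
  set Bad : Set ℕ := E1 ∪ X1 with hBad
  have hBadfin : Bad.Finite := hG₀.union hX1fin
  set 𝒮 : Set (Finset ℕ) := {S | (∃ x, S = cmp x) ∧ ∀ y ∈ S, y ∉ Bad} with h𝒮
  -- components are determined by their points
  have hcomp : ∀ S ∈ 𝒮, ∀ x ∈ S, cmp x = S := by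
    rintro S ⟨⟨a, rfl⟩, -⟩ x hx
    exact hc2 a x hx
  have hcard : ∀ S ∈ 𝒮, S.card ≤ K := by
    rintro S ⟨⟨a, rfl⟩, -⟩
    exact hc3 a
  -- infinite types
  let ι : Type := {t : Ty K C P // {S | S ∈ 𝒮 ∧ ty K d lab S = t}.Infinite}
  have : ∀ t : ι, ∃ e : ℕ ≃ {S | S ∈ 𝒮 ∧ ty K d lab S = t.1}, True := by
    intro t
    have : Infinite {S | S ∈ 𝒮 ∧ ty K d lab S = t.1} := t.2.to_subtype
    obtain ⟨e⟩ : Nonempty (ℕ ≃ {S | S ∈ 𝒮 ∧ ty K d lab S = t.1}) :=
      nonempty_equiv_of_countable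
    exact ⟨e, trivial⟩
  choose e _ using this
  let k : ι → ℕ := fun t => (t.1.1 : ℕ)
  have hek : ∀ (t : ι) (j : ℕ), (e t j : Finset ℕ).card = k t := by
    intro t j
    have h1 := (e t j).2
    have h2 := congrArg (fun s : Ty K C P => (s.1 : ℕ)) h1.2
    have h3 := hcard _ h1.1
    have h4 : min (e t j : Finset ℕ).card K = (e t j : Finset ℕ).card := min_eq_left h3
    exact h4.symm.trans h2
  have hkK : ∀ t : ι, k t ≤ K := fun t => by
    have := t.1.1.2
    show (t.1.1 : ℕ) ≤ K
    omega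
  let c : ∀ t : ι, ℕ → Fin (k t) → ℕ := fun t j l => en (e t j : Finset ℕ) l
  have hcmem : ∀ t j l, c t j l ∈ (e t j : Finset ℕ) := fun t j l =>
    en_mem (by rw [hek]; exact l.2)
  have hcmp : ∀ t j l, cmp (c t j l) = (e t j : Finset ℕ) := fun t j l =>
    hcomp _ (e t j).2.1 _ (hcmem t j l)
  have hcbad : ∀ t j l, c t j l ∉ Bad := fun t j l => (e t j).2.1.2 _ (hcmem t j l)
  have hcG : ∀ t j l, c t j l ∈ G₀ := by
    intro t j l
    have := hcbad t j l
    by_contra h
    exact this (Or.inl h)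
  have hcX : ∀ t j l, ∀ y, y ∉ G₀ → d (c t j l) y = p (lab (c t j l)) y := by
    intro t j l y hy
    have := hcbad t j l
    by_contra h
    exact this (Or.inr ⟨y, hy, h⟩)
  have hclab : ∀ t j j' l, lab (c t j l) = lab (c t j' l) := by
    intro t j j' l
    have h1 := (e t j).2.2
    have h2 := (e t j').2.2
    have h3 := congrArg (fun s : Ty K C P => s.2.1 ⟨l, lt_of_lt_of_le l.2 (hkK t)⟩)
      (h1.trans h2.symm)
    exact h3
  have hcd : ∀ t j j' l l', d (c t j l) (c t j l') = d (c t j' l) (c t j' l') := by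
    intro t j j' l l'
    have h1 := (e t j).2.2
    have h2 := (e t j').2.2
    have h3 := congrArg (fun s : Ty K C P => s.2.2 ⟨l, lt_of_lt_of_le l.2 (hkK t)⟩
      ⟨l', lt_of_lt_of_le l'.2 (hkK t)⟩) (h1.trans h2.symm)
    exact h3
  have hinj : ∀ t j l t' j' l', c t j l = c t' j' l' → t = t' ∧ j = j' ∧ (l : ℕ) = (l' : ℕ) := by
    intro t j l t' j' l' h
    have h1 : (e t j : Finset ℕ) = (e t' j' : Finset ℕ) := by
      rw [← hcmp t j l, ← hcmp t' j' l', h]
    have ht : t = t' := by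
      apply Subtype.ext
      rw [← (e t j).2.2, ← (e t' j').2.2, h1]
    subst ht
    have hj : j = j' := (e t).injective (Subtype.ext h1)
    subst hj
    refine ⟨rfl, rfl, en_inj ?_ ?_ h⟩
    · rw [hek]; exact l.2
    · rw [hek]; exact l'.2
  set KK : Set ℕ := {x | ∀ t j l, x ≠ c t j l} with hKK
  have hKKfin : KK.Finite := by
    have hsub : KK ⊆ (⋃ y ∈ Bad, (cmp y : Set ℕ)) ∪
        ⋃ t ∈ {t : Ty K C P | {S | S ∈ 𝒮 ∧ ty K d lab S = t}.Finite},
          ⋃ S ∈ {S | S ∈ 𝒮 ∧ ty K d lab S = t}, (S : Set ℕ) := by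
      intro x hx
      by_cases hxS : cmp x ∈ 𝒮
      · right
        by_cases hf : {S | S ∈ 𝒮 ∧ ty K d lab S = ty K d lab (cmp x)}.Finite
        · simp only [Set.mem_iUnion]
          exact ⟨ty K d lab (cmp x), hf, cmp x, ⟨hxS, rfl⟩, hc1 x⟩
        · exfalso
          let t : ι := ⟨ty K d lab (cmp x), hf⟩
          let j : ℕ := (e t).symm ⟨cmp x, hxS, rfl⟩
          have hj : (e t j : Finset ℕ) = cmp x := by
            simp [j]
          obtain ⟨l, hl, hlx⟩ := en_surj (hc1 x)
          have hl' : l < k t := by rw [← hek t j, hj]; exact hl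
          refine hx t j ⟨l, hl'⟩ ?_
          show x = en (e t j : Finset ℕ) l
          rw [hj, hlx]
      · left
        have : ∃ y ∈ cmp x, y ∈ Bad := by
          by_contra hcon
          push Not at hcon
          exact hxS ⟨⟨x, rfl⟩, hcon⟩
        obtain ⟨y, hy, hyB⟩ := this
        simp only [Set.mem_iUnion]
        refine ⟨y, hyB, ?_⟩
        rw [hc2 x y hy]
        exact hc1 x
    refine Set.Finite.subset (Set.Finite.union ?_ ?_) hsub
    · exact Set.Finite.biUnion hBadfin (fun y _ => Finset.finite_toSet _)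
    · refine Set.Finite.biUnion (Set.toFinite _) (fun t ht => ?_)
      exact Set.Finite.biUnion ht (fun S _ => Finset.finite_toSet _)
  refine cell_of d k KK c hKKfin (fun t j l h => h t j l rfl) hinj ?_ ?_
  · intro x
    by_cases h : x ∈ KK
    · exact Or.inl h
    · right
      simp only [hKK, Set.mem_ofPred_eq, not_forall, not_not] at h
      exact h
  · intro t σ
    -- the permutation
    let F : ℕ × Fin (k t) → ℕ := fun q => c t q.1 q.2
    have hF : Injective F := by
      rintro ⟨j, l⟩ ⟨j', l'⟩ h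
      obtain ⟨-, h2, h3⟩ := hinj t j l t j' l' h
      exact Prod.ext h2 (Fin.ext h3)
    let f : (ℕ × Fin (k t)) ≃ {x // x ∈ Set.range F} := Equiv.ofInjective F hF
    let s : Equiv.Perm (ℕ × Fin (k t)) := Equiv.prodCongr σ (Equiv.refl _)
    let g : Equiv.Perm ℕ := s.extendDomain f
    have hg1 : ∀ j l, g (c t j l) = c t (σ j) l := by
      intro j l
      have h1 : g (f (j, l) : ℕ) = f (s (j, l)) := Equiv.Perm.extendDomain_apply_image s f (j, l)
      exact h1
    have hg2 : ∀ x, (∀ j l, x ≠ c t j l) → g x = x := by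
      intro x hx
      apply Equiv.Perm.extendDomain_apply_not_subtype
      rintro ⟨⟨j, l⟩, h⟩
      exact hx j l h.symm
    -- a point of the family and a point outside
    have hmix : ∀ j l y, (∀ j l, y ≠ c t j l) → d (c t (σ j) l) y = d (c t j l) y := by
      intro j l y hy
      have hny : ∀ j', y ∉ cmp (c t j' l) := by
        intro j' hmem
        rw [hcmp] at hmem
        obtain ⟨l', hl', hy'⟩ := en_surj hmem
        rw [hek] at hl'
        exact hy j' ⟨l', hl'⟩ hy'.symm
      by_cases hyG : y ∈ G₀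
      · rw [hac _ _ (hcG t (σ j) l) hyG (hny _), hac _ _ (hcG t j l) hyG (hny _),
          hclab t (σ j) j l]
      · rw [hcX t (σ j) l y hyG, hcX t j l y hyG, hclab t (σ j) j l]
    refine ⟨g, ?_, hg1, hg2⟩
    intro x y
    by_cases hx : ∃ j l, x = c t j l
    · obtain ⟨j, l, rfl⟩ := hx
      by_cases hy : ∃ j l, y = c t j l
      · obtain ⟨j', l', rfl⟩ := hy
        rw [hg1, hg1]
        by_cases hjj : j = j'
        · subst hjj
          exact hcd t (σ j) j l l'
        · have hA : ∀ a b, a ≠ b → c t b l' ∉ cmp (c t a l) := by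
            intro a b hab hmem
            rw [hcmp] at hmem
            have h1 : (e t b : Finset ℕ) = (e t a : Finset ℕ) := by
              rw [← hcmp t b l']
              exact hcomp _ (e t a).2.1 _ hmem
            exact hab ((e t).injective (Subtype.ext h1)).symm
          rw [hac _ _ (hcG t _ l) (hcG t _ l') (hA _ _ (fun h => hjj (σ.injective h))),
            hac _ _ (hcG t _ l) (hcG t _ l') (hA _ _ hjj), hclab t (σ j) j l,
            hclab t (σ j') j' l']
      · push Not at hy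
        rw [hg1, hg2 y hy]
        exact hmix j l y hy
    · push Not at hx
      by_cases hy : ∃ j l, y = c t j l
      · obtain ⟨j', l', rfl⟩ := hy
        rw [hg1, hg2 x hx]
        exact hS _ _ _ _ (hmix j' l' x hx)
      · push Not at hy
        rw [hg2 x hx, hg2 y hy]

end Run7.h787.V3
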